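import Mathlib

namespace Pool.Agent.Results.MP_903317_co.Vega

open SimpleGraph

/-- the class F(k,2) -/
def InF {V : Type} [Fintype V] (G : SimpleGraph V) (k : ℕ) : Prop :=
  (∀ v, (G.neighborSet v).ncard = k) ∧ ¬ G.IsBipartite ∧ G.ediam = 2 ∧ G.egirth = 4

/-- the graph G_k(p,q) on Z / (3p-1)q -/
def Gk (p q : ℕ) : SimpleGraph (Fin ((3 * p - 1) * q)) :=
  fromRel fun i j => ∃ n : Fin p, ((i : ℕ) - (j : ℕ) : ℤ) ≡ 1 + 3 * (n : ℕ) [ZMOD (3 * p - 1 : ℕ)]

def pt (v : Fin 32) : ℕ := [0, 1, 1, 1, 2, 2, 2, 3, 4, 4, 4, 5, 5, 6, 6, 6, 6, 7, 7, 7, 8, 8, 8, 9, 9, 9,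
  10, 10, 10, 10, 11, 11].getD v 0

def E : List (ℕ × ℕ) := [(0, 2), (0, 3), (0, 6), (0, 9), (1, 3), (1, 4), (1, 6), (1, 9), (2, 4), (2, 7),
  (2, 10), (3, 7), (3, 10), (4, 8), (4, 11), (5, 6), (5, 8), (5, 10), (6, 7), (6, 11), (7, 8), (8, 9),
  (9, 10), (10, 11)]

def A (u v : Fin 32) : Prop := (pt u, pt v) ∈ E ∨ (pt v, pt u) ∈ E

instance : DecidableRel A := fun _ _ => inferInstanceAs (Decidable (_ ∨ _))

def H : SimpleGraph (Fin 32) := ⟨A, ⟨fun _ _ h => h.symm⟩, ⟨by decide +kernel⟩⟩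

instance : DecidableRel H.Adj := inferInstanceAs (DecidableRel A)

instance : DecidableRel (Gk 11 1).Adj := fun i j => decidable_of_iff _ (fromRel_adj _ i j).symm

/-- A second graph in F(11,2) with 3 * 11 - 1 = 32 vertices. -/
theorem result : ∃ H : SimpleGraph (Fin 32), InF H 11 ∧ IsEmpty (H ≃g Gk 11 1) := by
  refine ⟨H, ⟨fun v => ?_, fun ⟨c⟩ => ?_, le_antisymm (ediam_le_of_edist_le fun u v => ?_) ?_,
    le_antisymm ?_ (le_egirth.mpr fun a w hw => ?_)⟩, ⟨fun f => ?_⟩⟩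
  · rw [← coe_neighborFinset, Set.ncard_coe_finset]; revert v; decide +kernel
  · have h1 := c.valid (show H.Adj 0 4 by decide)
    have h2 := c.valid (show H.Adj 4 8 by decide)
    have h3 := c.valid (show H.Adj 8 1 by decide)
    have h4 := c.valid (show H.Adj 1 7 by decide)
    have h5 := c.valid (show H.Adj 7 0 by decide)
    omega
  · obtain rfl | h | ⟨w, h1, h2⟩ : u = v ∨ H.Adj u v ∨ ∃ w, H.Adj u w ∧ H.Adj w v := by
      revert u v; decide +kernel
    · simp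
    · simp [edist_eq_one_iff_adj.mpr h]
    · exact edist_le (Walk.cons h1 (Walk.cons h2 Walk.nil))
  · have : 1 < H.edist 0 1 := by rw [← not_le, edist_le_one_iff_adj_or_eq]; decide
    exact (Order.add_one_le_of_lt this).trans edist_le_ediam
  · exact egirth_le_length (w := Walk.cons (show H.Adj 1 8 by decide) (Walk.cons
      (show H.Adj 8 2 by decide) (Walk.cons (show H.Adj 2 9 by decide)
      (Walk.cons (show H.Adj 9 1 by decide) Walk.nil)))) (by
        rw [Walk.isCycle_def, Walk.isTrail_def]; decide)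
  · have h3 := hw.three_le_length
    have : w.length ≠ 3 := fun h => by
      obtain ⟨s, hs⟩ := is3Clique_iff_exists_cycle_length_three.mpr ⟨a, w, hw, h⟩
      obtain ⟨x, y, z, h1, h2, h3, -⟩ := is3Clique_iff.mp hs
      exact (by decide +kernel : ∀ x y, H.Adj x y → ∀ z, H.Adj x z → ¬ H.Adj y z) x y h1 z h2 h3
    exact_mod_cast (by omega : 4 ≤ w.length)
  · have t : ∀ u v, (∀ w, (Gk 11 1).Adj u w ↔ (Gk 11 1).Adj v w) → u = v := by decide +kernel
    have t' : ∀ w, H.Adj 1 w ↔ H.Adj 2 w := by decide +kernel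
    refine absurd (f.injective (t (f 1) (f 2) fun w => ?_)) (by decide)
    obtain ⟨w, rfl⟩ := f.surjective w
    rw [f.map_adj_iff, f.map_adj_iff, t']

end Pool.Agent.Results.MP_903317_co.Vega
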